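import Pool.Agent.H6.N4D.TC
import Pool.Agent.H28.NW.Targets

/-!
# Row END of the board nw_modules (MP_c59857_nt): the end game, assembly
-/

set_option autoImplicit false

open Finset

namespace Pool.Agent.H19.NW

open Pool.Agent.H28.NW
open Pool.Agent.H6.N4D

theorem pf_END (B : ℕ) (c X₁ : ℝ) (hG : Gap B c X₁) (hREL : T_REL) (hWIN : W_WIN) :
    W_END := by
  obtain ⟨ε, ε₀, K, hε, hε₀, hK, hR⟩ := hREL B c X₁ hG
  obtain ⟨δ, Q, hδ, hW⟩ := hWIN K ε ε₀ hK hε hε₀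
  refine ⟨δ, Q, hδ, ?_⟩
  intro η hη
  obtain ⟨e, X₀, he, hw⟩ := hW η hη
  obtain ⟨X₀', hr⟩ := hR η hη
  refine ⟨e, max X₀ X₀', he, ?_⟩
  intro X Y lam hX hY1 hY2 hL hsum
  obtain ⟨S, θ, φ, hS, hSK, hSX, hrel⟩ :=
    hw X Y lam (le_trans (le_max_left _ _) hX) hY1 hY2 hL hsum
  refine hr S θ φ hS hSK ?_ hrel
  rw [hSX]
  have h1 : X₀' ≤ X.T := ((le_max_right _ _).trans hX).trans X.L_le_T
  have h2 : X.T ≤ X.hi := by
    have h3 := Real.log_le_sub_one_of_pos X.hi_pos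
    unfold Wn.T
    linarith
  exact h1.trans h2

end Pool.Agent.H19.NW
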