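import Pool.Agent.H28.NW.Targets

/-! row FNL of the board nw_modules (MP_c59857_nt): no scale of almost maximal energy -/

set_option autoImplicit false

open Finset Pool.Agent.H6.N4D Pool.Agent.H6.TP

namespace Pool.Agent.H19.NW

open Pool.Agent.H28.NW

theorem pf_FNL (hTOP : W_TOPP) (hEND : W_END) : W_FNL := by
  obtain ⟨δ, Q, hδ, hE⟩ := hEND
  obtain ⟨η, hη, hT⟩ := hTOP δ Q hδ
  obtain ⟨e, X1, he, hE2⟩ := hE η hη
  obtain ⟨κ, X2, Y0, hκ, hT2⟩ := hT e he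
  have hlim : Filter.Tendsto (fun x : ℝ => Real.exp (x ^ (191 / 200 : ℝ)))
      Filter.atTop Filter.atTop :=
    Real.tendsto_exp_atTop.comp (tendsto_rpow_atTop (by norm_num))
  obtain ⟨X3, hX3⟩ := Filter.eventually_atTop.1 (hlim.eventually_ge_atTop (Y0 : ℝ))
  refine ⟨κ, max (max X1 X2) X3, hκ, fun X Y lam hX hY1 hY2 hl => ?_⟩
  have a1 : X1 ≤ X.L := ((le_max_left _ _).trans (le_max_left _ _)).trans hX
  have a2 : X2 ≤ X.L := ((le_max_right _ _).trans (le_max_left _ _)).trans hX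
  have a4 : X3 ≤ X.T := ((le_max_right _ _).trans hX).trans X.L_le_T
  have a3 : (1 : ℝ) ≤ X.hi := by exact_mod_cast X.one_le.trans X.le
  by_contra hcon
  push Not at hcon
  have b1 : Y0 ≤ Y := by exact_mod_cast (hX3 X.T a4).trans hY1
  have b2 : (Y : ℝ) ≤ X.hi := by
    refine hY2.trans ?_
    calc (X.hi : ℝ) ^ (1 / 4 : ℝ) ≤ (X.hi : ℝ) ^ (1 : ℝ) :=
          Real.rpow_le_rpow_of_exponent_le a3 (by norm_num)
      _ = X.hi := Real.rpow_one _
  exact hE2 X Y lam a1 hY1 hY2 hl (hT2 X Y lam a2 b1 b2 hl hcon.le)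

end Pool.Agent.H19.NW
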