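import Pool.Agent.H70.EN.Targets
import Pool.Agent.H28.NW.Targets

/-!
# Row SC2 of the board nw_modules (MP_c59857_nt): the energy on the multiples of `q` on the long
windows
-/

set_option autoImplicit false

open Finset Pool.Agent.H6.N4D Pool.Agent.H93.EB Pool.Agent.H70.EN

namespace Pool.Agent.H19.NW

open Pool.Agent.H28.NW

theorem half_pow_le {a b c : ℕ} {x y : ℝ} (hx : x ≤ 2 ^ a) (hy : (2 : ℝ) ^ b ≤ y)
    (h : a + c ≤ b) : x / y ≤ (1 / 2 : ℝ) ^ c := by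
  have hy0 : 0 < y := lt_of_lt_of_le (by positivity) hy
  rw [div_le_iff₀ hy0]
  have h1 : (2 : ℝ) ^ a * 2 ^ c ≤ y := by
    rw [← pow_add]
    exact (pow_le_pow_right₀ (by norm_num) h).trans hy
  have h2 : (0 : ℝ) < 2 ^ c := by positivity
  rw [one_div, inv_pow, ← div_eq_inv_mul, le_div_iff₀ h2]
  exact (mul_le_mul_of_nonneg_right hx h2.le).trans h1

theorem log_two_pow_le (n : ℕ) : Real.log ((2 : ℝ) ^ n) ≤ n := by
  rw [Real.log_pow]
  have h1 := Real.log_two_lt_d9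
  have h2 : (0 : ℝ) ≤ n := Nat.cast_nonneg n
  nlinarith

theorem pf_SC2 (h1 : W_MN1) (h2 : W_SCV) : W_SC2 := by
  obtain ⟨C1, hC1, hM⟩ := h1
  obtain ⟨C2, hC2, hS⟩ := h2
  refine ⟨C1 + C2, by positivity, ?_⟩
  intro X m q A lam hX hlam hA hq
  unfold QQ at hq
  rw [mem_filter, mem_Ioc] at hq
  obtain ⟨⟨-, hq2⟩, hqp⟩ := hq
  have hqpos := hqp.pos
  have hmA : m ≤ A * m := Nat.le_mul_of_pos_left m (by omega)
  have hqN : q ≤ 2 ^ (A * m) :=
    hq2.trans (Nat.pow_le_pow_right (by norm_num) (by omega))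
  have hH : 2 ^ (A * m - m / 200) ≤ 2 ^ (A * m) / q := by
    rw [Nat.le_div_iff_mul_le hqpos]
    calc 2 ^ (A * m - m / 200) * q ≤ 2 ^ (A * m - m / 200) * 2 ^ (m / 200) :=
          Nat.mul_le_mul_left _ hq2
      _ = 2 ^ (A * m) := by
          rw [← pow_add]
          congr 1
          omega
  have hNH : 2 ^ (A * m - m / 100) ≤ 2 ^ (A * m) / q :=
    (Nat.pow_le_pow_right (by norm_num) (by omega)).trans hH
  have hL := X.L_nonneg
  have e1 := hS X q (2 ^ (A * m)) lam hX hlam hqp hqN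
  have e2 := (hM X (2 ^ (A * m - m / 100)) (2 ^ (A * m) / q) lam hX (fun n => by
    rcases hlam.pm n with h | h <;> rw [h] <;> simp) (Nat.one_le_two_pow) hNH).1
  have e3 := (abs_le.1 e1).2
  have hq2' : (q : ℝ) ≤ 2 ^ (m / 200) := by exact_mod_cast hq2
  have hH' : (2 : ℝ) ^ (A * m - m / 200) ≤ ((2 ^ (A * m) / q : ℕ) : ℝ) := by exact_mod_cast hH
  have f1 : (q : ℝ) / ((2 ^ (A * m) : ℕ) : ℝ) ≤ (1 / 2) ^ (m / 2000) := by
    push_cast
    exact half_pow_le hq2' le_rfl (by omega)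
  have f2 : ((2 ^ (A * m - m / 100) : ℕ) : ℝ) / ((2 ^ (A * m) / q : ℕ) : ℝ) ≤
      (1 / 2) ^ (m / 2000) := by
    have h3 : ((2 ^ (A * m - m / 100) : ℕ) : ℝ) ≤ 2 ^ (A * m - m / 100) := by push_cast; rfl
    exact half_pow_le h3 hH' (by omega)
  have f3 : Real.log q ≤ A * m := by
    have h3 : Real.log q ≤ Real.log ((2 : ℝ) ^ (m / 200)) :=
      Real.log_le_log (by exact_mod_cast hqpos) hq2'
    have h4 := log_two_pow_le (m / 200)
    have h5 : ((m / 200 : ℕ) : ℝ) ≤ A * m := by exact_mod_cast (by omega : m / 200 ≤ A * m)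
    linarith
  have f4 : Real.log ((2 ^ (A * m) / q : ℕ) : ℝ) ≤ A * m := by
    have h3 : ((2 ^ (A * m) / q : ℕ) : ℝ) ≤ 2 ^ (A * m) := by
      exact_mod_cast Nat.div_le_self _ _
    have h4 : (0 : ℝ) < ((2 ^ (A * m) / q : ℕ) : ℝ) := lt_of_lt_of_le (by positivity) hH'
    have h5 := Real.log_le_log h4 h3
    have h6 := log_two_pow_le (A * m)
    push_cast at h6
    linarith
  have g1 : C2 * ((q : ℝ) / ((2 ^ (A * m) : ℕ) : ℝ) * X.L + Real.log q + 1) ≤
      C2 * ((1 / 2) ^ (m / 2000) * X.L + A * m + 1) := by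
    refine mul_le_mul_of_nonneg_left ?_ hC2.le
    have := mul_le_mul_of_nonneg_right f1 hL
    linarith
  have g2 : C1 * (((2 ^ (A * m - m / 100) : ℕ) : ℝ) / ((2 ^ (A * m) / q : ℕ) : ℝ) * X.L +
      Real.log ((2 ^ (A * m) / q : ℕ) : ℝ) + 1) ≤
      C1 * ((1 / 2) ^ (m / 2000) * X.L + A * m + 1) := by
    refine mul_le_mul_of_nonneg_left ?_ hC1.le
    have := mul_le_mul_of_nonneg_right f2 hL
    linarith
  linarith

end Pool.Agent.H19.NW
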